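import Pool.Agent.H28.GU.TargetsC

/-!
# Bogolyubov
-/

set_option autoImplicit false

open Finset Filter Topology
open scoped Pointwise ComplexConjugate

namespace Pool.Agent.H55.GU

open Pool.Agent.H28.GU

variable {q : ℕ} [NeZero q]

/-- the indicator function -/
noncomputable def ind (A : Finset (ZMod q)) (n : ZMod q) : ℝ := by
  classical
  exact if n ∈ A then 1 else 0

theorem hat_ind (A : Finset (ZMod q)) (ξ : ZMod q) :
    hat (ind A) ξ = ∑ n ∈ A, (ZMod.stdAddChar (n * ξ) : ℂ) := by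
  classical
  unfold hat ind
  rw [← Finset.sum_subset (Finset.subset_univ A)]
  · refine Finset.sum_congr rfl fun n hn => ?_
    rw [if_pos hn]
    simp
  · intro n _ hn
    rw [if_neg hn]
    simp

theorem conj_hat_ind (A : Finset (ZMod q)) (ξ : ZMod q) :
    conj (hat (ind A) ξ) = ∑ n ∈ A, (ZMod.stdAddChar (-(n * ξ)) : ℂ) := by
  rw [hat_ind, map_sum]
  refine Finset.sum_congr rfl fun n _ => ?_
  rw [AddChar.map_neg_eq_conj]

theorem orth (t : ZMod q) :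
    ∑ ξ : ZMod q, (ZMod.stdAddChar (ξ * t) : ℂ) = if t = 0 then (q : ℂ) else 0 := by
  rw [AddChar.sum_mulShift t (ZMod.isPrimitive_stdAddChar q), ZMod.card]
  split_ifs <;> simp

/-- the number of representations -/
noncomputable def rep (A : Finset (ZMod q)) (h : ZMod q) : ℕ := by
  classical
  exact (Finset.univ.filter (fun x : Fin 4 → ZMod q =>
    (∀ j, x j ∈ A) ∧ x 0 + x 1 - x 2 - x 3 = h)).card

theorem norm_pow_four (z : ℂ) : ((‖z‖ ^ 4 : ℝ) : ℂ) = z * z * conj z * conj z := by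
  have h : z * conj z = ((‖z‖ ^ 2 : ℝ) : ℂ) := by
    rw [Complex.mul_conj, Complex.normSq_eq_norm_sq]
  have h2 : z * z * conj z * conj z = (z * conj z) * (z * conj z) := by ring
  rw [h2, h]
  push_cast
  ring

theorem expand (A : Finset (ZMod q)) (ξ : ZMod q) :
    ((‖hat (ind A) ξ‖ ^ 4 : ℝ) : ℂ) = ∑ x ∈ Fintype.piFinset (fun _ : Fin 4 => A),
      (ZMod.stdAddChar (ξ * (x 0 + x 1 - x 2 - x 3)) : ℂ) := by
  classical
  rw [norm_pow_four, conj_hat_ind, hat_ind]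
  have h := Finset.prod_univ_sum (fun _ : Fin 4 => A)
    (fun (j : Fin 4) (n : ZMod q) =>
      (ZMod.stdAddChar ((![n * ξ, n * ξ, -(n * ξ), -(n * ξ)] : Fin 4 → ZMod q) j) : ℂ))
  simp only [Fin.prod_univ_four, Matrix.cons_val_zero, Matrix.cons_val_one, Matrix.cons_val] at h
  rw [h]
  refine Finset.sum_congr rfl fun x _ => ?_
  rw [← AddChar.map_add_eq_mul, ← AddChar.map_add_eq_mul, ← AddChar.map_add_eq_mul]
  congr 1
  ring

theorem key (A : Finset (ZMod q)) (h : ZMod q) :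
    (q : ℂ) * (rep A h : ℂ) =
      ∑ ξ : ZMod q, ((‖hat (ind A) ξ‖ ^ 4 : ℝ) : ℂ) * (ZMod.stdAddChar (-(h * ξ)) : ℂ) := by
  classical
  have h1 : ∀ ξ : ZMod q, ((‖hat (ind A) ξ‖ ^ 4 : ℝ) : ℂ) * (ZMod.stdAddChar (-(h * ξ)) : ℂ) =
      ∑ x ∈ Fintype.piFinset (fun _ : Fin 4 => A),
        (ZMod.stdAddChar (ξ * (x 0 + x 1 - x 2 - x 3 - h)) : ℂ) := by
    intro ξ
    rw [expand, Finset.sum_mul]
    refine Finset.sum_congr rfl fun x _ => ?_
    rw [← AddChar.map_add_eq_mul]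
    congr 1
    ring
  rw [Finset.sum_congr rfl (fun ξ _ => h1 ξ), Finset.sum_comm]
  rw [Finset.sum_congr rfl (fun x _ => orth (x 0 + x 1 - x 2 - x 3 - h))]
  rw [← Finset.sum_filter, Finset.sum_const, nsmul_eq_mul, mul_comm]
  congr 2
  unfold rep
  congr 1
  ext x
  simp only [Finset.mem_filter, Finset.mem_univ, true_and, Fintype.mem_piFinset]
  constructor
  · rintro ⟨h1, h2⟩
    exact ⟨h1, by rw [h2, sub_self]⟩
  · rintro ⟨h1, h2⟩
    exact ⟨h1, sub_eq_zero.1 h2⟩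

theorem keyRe (A : Finset (ZMod q)) (h : ZMod q) :
    (q : ℝ) * (rep A h : ℝ) =
      ∑ ξ : ZMod q, ‖hat (ind A) ξ‖ ^ 4 * (ZMod.stdAddChar (-(h * ξ)) : ℂ).re := by
  have h1 := congrArg Complex.re (key A h)
  rw [Complex.re_sum] at h1
  have h2 : ((q : ℂ) * (rep A h : ℂ)).re = (q : ℝ) * (rep A h : ℝ) := by
    rw [← Complex.ofReal_natCast, ← Complex.ofReal_natCast, ← Complex.ofReal_mul,
      Complex.ofReal_re]
  rw [h2] at h1
  rw [h1]
  refine Finset.sum_congr rfl fun ξ _ => ?_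
  rw [Complex.re_ofReal_mul]

theorem sum_sq_ind (A : Finset (ZMod q)) : ∑ n, (ind A n) ^ 2 = (A.card : ℝ) := by
  classical
  unfold ind
  have h1 : ∀ n : ZMod q, ((if n ∈ A then (1 : ℝ) else 0)) ^ 2 = if n ∈ A then 1 else 0 := by
    intro n
    split_ifs <;> norm_num
  rw [Finset.sum_congr rfl (fun n _ => h1 n), Finset.sum_ite_mem, Finset.univ_inter,
    Finset.sum_const, nsmul_eq_mul, mul_one]

theorem pf_BG (hNR : T_NR) (hHF : T_HF) : T_BG := by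
  classical
  intro α hα
  refine ⟨⌊2 / α ^ 3⌋₊, fun q _ A hA => ?_⟩
  have hq0 : (0 : ℝ) < (q : ℝ) := by exact_mod_cast Nat.pos_of_ne_zero (NeZero.ne q)
  have hcard : (A.card : ℝ) ≤ q := by
    have h1 := Finset.card_le_univ A
    rw [ZMod.card] at h1
    exact_mod_cast h1
  have hα1 : α ≤ 1 := by
    by_contra hlt
    push Not at hlt
    nlinarith
  have hpars := hHF.1 q (ind A)
  rw [sum_sq_ind] at hpars
  let Λ : Finset (ZMod q) := Finset.univ.filter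
    (fun ξ => α ^ 3 / 2 * (q : ℝ) ^ 2 ≤ ‖hat (ind A) ξ‖ ^ 2)
  have hα3 : 0 < α ^ 3 := by positivity
  have hcA : 0 < (A.card : ℝ) := lt_of_lt_of_le (mul_pos hα hq0) hA
  refine ⟨Λ, ?_, fun h hh => ?_⟩
  · have h1 : (Λ.card : ℝ) * (α ^ 3 / 2 * (q : ℝ) ^ 2) ≤ ∑ ξ : ZMod q, ‖hat (ind A) ξ‖ ^ 2 := by
      calc (Λ.card : ℝ) * (α ^ 3 / 2 * (q : ℝ) ^ 2)
          = ∑ ξ ∈ Λ, (α ^ 3 / 2 * (q : ℝ) ^ 2) := by rw [Finset.sum_const, nsmul_eq_mul]
        _ ≤ ∑ ξ ∈ Λ, ‖hat (ind A) ξ‖ ^ 2 :=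
            Finset.sum_le_sum fun ξ hξ => (Finset.mem_filter.1 hξ).2
        _ ≤ ∑ ξ : ZMod q, ‖hat (ind A) ξ‖ ^ 2 :=
            Finset.sum_le_sum_of_subset_of_nonneg (Finset.subset_univ _)
              fun ξ _ _ => by positivity
    rw [hpars] at h1
    refine Nat.le_floor ?_
    rw [le_div_iff₀ hα3]
    have h2 : (Λ.card : ℝ) * (α ^ 3 / 2 * (q : ℝ) ^ 2) ≤ (q : ℝ) ^ 2 := by
      refine h1.trans ?_
      rw [sq]
      exact mul_le_mul_of_nonneg_left hcard hq0.le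
    have h3 : (Λ.card : ℝ) * α ^ 3 / 2 * (q : ℝ) ^ 2 ≤ 1 * (q : ℝ) ^ 2 := by
      calc (Λ.card : ℝ) * α ^ 3 / 2 * (q : ℝ) ^ 2
          = (Λ.card : ℝ) * (α ^ 3 / 2 * (q : ℝ) ^ 2) := by ring
        _ ≤ (q : ℝ) ^ 2 := h2
        _ = 1 * (q : ℝ) ^ 2 := (one_mul _).symm
    have h4 := le_of_mul_le_mul_right h3 (by positivity)
    linarith
  · have h0 : hat (ind A) 0 = (A.card : ℂ) := by
      rw [hat_ind]
      simp
    have hn0 : ‖hat (ind A) 0‖ = (A.card : ℝ) := by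
      rw [h0, Complex.norm_natCast]
    have hkey := keyRe A h
    -- the terms
    have hterm : ∀ ξ : ZMod q, ξ ≠ 0 → -(α ^ 3 / 2 * (q : ℝ) ^ 2 * ‖hat (ind A) ξ‖ ^ 2) ≤
        ‖hat (ind A) ξ‖ ^ 4 * (ZMod.stdAddChar (-(h * ξ)) : ℂ).re := by
      intro ξ _
      by_cases hξ : ξ ∈ Λ
      · have h1 : nr (ξ * h) ≤ 1 / 4 := (Finset.mem_filter.1 hh).2 ξ hξ
        have h2 : nr (-(h * ξ)) ≤ 1 / 4 := by
          rw [(hNR q).2.1, mul_comm]
          exact h1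
        have h3 := (hNR q).2.2.2.2 _ h2
        have h4 : 0 ≤ ‖hat (ind A) ξ‖ ^ 4 * (ZMod.stdAddChar (-(h * ξ)) : ℂ).re :=
          mul_nonneg (by positivity) h3
        have h5 : 0 ≤ α ^ 3 / 2 * (q : ℝ) ^ 2 * ‖hat (ind A) ξ‖ ^ 2 := by positivity
        linarith
      · have h1 : ‖hat (ind A) ξ‖ ^ 2 < α ^ 3 / 2 * (q : ℝ) ^ 2 := by
          by_contra hc
          push Not at hc
          exact hξ (Finset.mem_filter.2 ⟨Finset.mem_univ _, hc⟩)
        have h2 : |(ZMod.stdAddChar (-(h * ξ)) : ℂ).re| ≤ 1 := by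
          refine (Complex.abs_re_le_norm _).trans ?_
          rw [AddChar.norm_apply]
        have h3 := (abs_le.1 h2).1
        have h4 : ‖hat (ind A) ξ‖ ^ 4 * (-1) ≤
            ‖hat (ind A) ξ‖ ^ 4 * (ZMod.stdAddChar (-(h * ξ)) : ℂ).re :=
          mul_le_mul_of_nonneg_left h3 (by positivity)
        have h5 : ‖hat (ind A) ξ‖ ^ 4 ≤ α ^ 3 / 2 * (q : ℝ) ^ 2 * ‖hat (ind A) ξ‖ ^ 2 := by
          have h6 : ‖hat (ind A) ξ‖ ^ 4 = ‖hat (ind A) ξ‖ ^ 2 * ‖hat (ind A) ξ‖ ^ 2 := by ring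
          rw [h6]
          exact mul_le_mul_of_nonneg_right h1.le (by positivity)
        linarith
    have hsplit : (A.card : ℝ) ^ 4 - α ^ 3 / 2 * (q : ℝ) ^ 2 * (q * A.card) ≤
        (q : ℝ) * (rep A h : ℝ) := by
      rw [hkey, ← Finset.add_sum_erase _ _ (Finset.mem_univ (0 : ZMod q))]
      have h1 : ‖hat (ind A) 0‖ ^ 4 * (ZMod.stdAddChar (-(h * (0 : ZMod q))) : ℂ).re =
          (A.card : ℝ) ^ 4 := by
        rw [hn0]
        simp
      rw [h1]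
      have h2 : -(α ^ 3 / 2 * (q : ℝ) ^ 2 * (q * A.card)) ≤
          ∑ ξ ∈ Finset.univ.erase (0 : ZMod q),
            ‖hat (ind A) ξ‖ ^ 4 * (ZMod.stdAddChar (-(h * ξ)) : ℂ).re := by
        calc -(α ^ 3 / 2 * (q : ℝ) ^ 2 * (q * A.card))
            = -(α ^ 3 / 2 * (q : ℝ) ^ 2 * ∑ ξ : ZMod q, ‖hat (ind A) ξ‖ ^ 2) := by rw [hpars]
          _ ≤ -(α ^ 3 / 2 * (q : ℝ) ^ 2 *
                ∑ ξ ∈ Finset.univ.erase (0 : ZMod q), ‖hat (ind A) ξ‖ ^ 2) := by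
              refine neg_le_neg (mul_le_mul_of_nonneg_left ?_ (by positivity))
              exact Finset.sum_le_sum_of_subset_of_nonneg (Finset.erase_subset _ _)
                fun ξ _ _ => by positivity
          _ = ∑ ξ ∈ Finset.univ.erase (0 : ZMod q),
                -(α ^ 3 / 2 * (q : ℝ) ^ 2 * ‖hat (ind A) ξ‖ ^ 2) := by
              rw [Finset.mul_sum, Finset.sum_neg_distrib]
          _ ≤ _ := Finset.sum_le_sum fun ξ hξ => hterm ξ (Finset.ne_of_mem_erase hξ)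
      linarith
    have hrep : (rep A h : ℝ) = ((Finset.univ.filter (fun x : Fin 4 → ZMod q =>
        (∀ j, x j ∈ A) ∧ x 0 + x 1 - x 2 - x 3 = h)).card : ℝ) := by
      unfold rep
      congr
    rw [← hrep]
    have hfin : (q : ℝ) * (α ^ 4 / 2 * (q : ℝ) ^ 3) ≤ (q : ℝ) * (rep A h : ℝ) := by
      refine le_trans ?_ hsplit
      -- a^4 >= α^3 q^3 a
      have h1 : (α * q) ^ 3 ≤ (A.card : ℝ) ^ 3 := pow_le_pow_left₀ (by positivity) hA 3
      have h2 : (α * q) ^ 3 * A.card ≤ (A.card : ℝ) ^ 3 * A.card :=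
        mul_le_mul_of_nonneg_right h1 hcA.le
      have h3 : (α * q) ^ 3 * (α * q) ≤ (α * q) ^ 3 * A.card :=
        mul_le_mul_of_nonneg_left hA (by positivity)
      nlinarith
    exact le_of_mul_le_mul_left hfin hq0

end Pool.Agent.H55.GU
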